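import Mathlib
import Pool.Agent.H80Z.DanExtDefs
import Pool.Agent.H80Z.DanExt

namespace Pool.Agent.Results.MP_563419_an.NoExtension

open Pool.Agent.H80Z.DanExt

/-- The smooth irreducible fivefold `Z = D × ℂ³` has the algebraic overshear density property, the
surfaces `X = D × {0}` and `Y = {(0, 0, 1)} × D` in it are isomorphic through the polynomial maps
`phi` and `psi`, and no homeomorphism of `Z` (so no holomorphic automorphism) extends `phi`. -/
theorem result :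
    idealZ.IsPrime ∧ Algebra.Smooth ℂ (MvPolynomial (Fin 6) ℂ ⧸ idealZ) ∧
    OvershearDensity (MvPolynomial (Fin 6) ℂ ⧸ idealZ) ∧
    setX ⊆ setZ ∧ setY ⊆ setZ ∧
    Set.MapsTo phi setX setY ∧ Set.MapsTo psi setY setX ∧ Set.InvOn psi phi setX setY ∧
    ¬ ∃ Φ : setZ ≃ₜ setZ, ∀ w : setZ, (w : Fin 6 → ℂ) ∈ setX → (Φ w : Fin 6 → ℂ) = phi w :=
  ⟨Pool.Agent.H80Z.Dan.idl_prime 3, Pool.Agent.H80Z.Dan.smooth 3, Pool.Agent.H80Z.Dan.os_three,
    X_sub, Y_sub, maps_phi, maps_psi, inv_on, no_ext⟩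

end Pool.Agent.Results.MP_563419_an.NoExtension
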